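import Pool.Agent.H19.OM.Stm4
import Pool.Agent.H5.OM.Shi
import Pool.Agent.H95.OM.Gra

set_option autoImplicit false

/-!
# Module AFF: two shifts of the product of Poisson laws overlap

With `f`, `g` the densities of the two shifts (disjoint supports of the shifts), `G = f g` and `t = ∫ G²`:
`√G ≥ (3/2) G / √t - (1/2) G² / √t³`, so `S = ∫ √G ≥ 1 / √t`, and `√(f g) ≤ (c min (f, g) + (f + g) / c) / 2` with
`c = 2 / S` gives `S² ≤ 2 ∫ min (f, g)`.
-/

namespace Pool.Agent.H50.OM

open Finset MeasureTheory ProbabilityTheory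
open Pool.Agent.H19.OM
open scoped NNReal

theorem cc_le (a : ℝ) (ha : 0 < a) (m : ℕ) : cc a m m ≤ Real.exp ((m : ℝ) ^ 2 / a) := by
  unfold cc
  refine le_trans (Finset.sum_le_sum fun j _ => ?_)
    (Real.sum_le_exp_of_nonneg (x := (m : ℝ) ^ 2 / a) (by positivity) (m + 1))
  have h1 : (m.choose j : ℝ) ≤ (m : ℝ) ^ j / j.factorial := Nat.choose_le_pow_div j m
  have hj : (0 : ℝ) < j.factorial := by exact_mod_cast j.factorial_pos
  calc (m.choose j : ℝ) * m.choose j * j.factorial / a ^ j
      ≤ ((m : ℝ) ^ j / j.factorial) * ((m : ℝ) ^ j / j.factorial) * j.factorial / a ^ j := by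
        gcongr
    _ = ((m : ℝ) ^ 2 / a) ^ j / j.factorial := by
        rw [div_pow, ← pow_mul, mul_comm 2 j, pow_mul]
        field_simp

theorem cc_nonneg (a : ℝ) (ha : 0 < a) (m : ℕ) : 0 ≤ cc a m m :=
  Finset.sum_nonneg fun j _ => by positivity

theorem cc_ge_one (a : ℝ) (ha : 0 < a) (m : ℕ) : 1 ≤ cc a m m := by
  unfold cc
  refine le_trans (le_of_eq ?_) (Finset.single_le_sum
    (f := fun j : ℕ => (m.choose j : ℝ) * (m.choose j) * j.factorial / a ^ j)
    (fun j _ => by positivity) (Finset.mem_range.2 (Nat.succ_pos m)))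
  simp

theorem core (a : ℝ≥0) (ha : 0 < a) (k : ℕ) (d e : Fin k → ℕ) (hde : ∀ i, d i = 0 ∨ e i = 0)
    (φ : (Fin k → ℕ) → ℝ) (hφ : Bd φ) :
    |P a (fun w => φ (w + d)) - P a (fun w => φ (w + e))| ≤
      2 - Real.exp (-(∑ i, ((d i : ℝ) + e i) ^ 2) / a) := by
  have ha' : (0 : ℝ) < a := by exact_mod_cast ha
  obtain ⟨hf1, hf2⟩ := Pool.Agent.H5.OM.t_SHI a ha k d φ hφ
  obtain ⟨hg1, hg2⟩ := Pool.Agent.H5.OM.t_SHI a ha k e φ hφ
  rw [hf2, hg2]
  set μ : Measure (Fin k → ℕ) := Measure.pi (fun _ : Fin k => poissonMeasure a) with hμ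
  have one_int : ∀ u : Fin k → ℕ, ∫ w, gg a u w ∂μ = 1 := by
    intro u
    have h := (Pool.Agent.H5.OM.t_SHI a ha k u (fun _ => 1) (fun _ => by simp)).2
    unfold P at h
    simp only [one_mul] at h
    rw [← h]
    simp
  have intg : ∀ u : Fin k → ℕ, Integrable (fun w => gg a u w) μ := fun u =>
    Pool.Agent.H5.OM.gg_int a ha u
  have nng : ∀ u w : Fin k → ℕ, 0 ≤ gg a u w := fun u w => Pool.Agent.H5.OM.gg_nonneg a u w
  set m : Fin k → ℕ := d + e with hm
  have hfg : ∀ w, gg a d w * gg a e w = gg a m w := by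
    intro w
    unfold gg
    rw [← Finset.prod_mul_distrib]
    refine Finset.prod_congr rfl fun i _ => ?_
    rcases hde i with h | h
    · simp [hm, h]
    · simp [hm, h]
  obtain ⟨hG1, hG2⟩ := Pool.Agent.H95.OM.t_GRA a ha k m m
  set t : ℝ := ∏ i, cc a (m i) (m i) with ht
  have ht1 : 1 ≤ t := by
    rw [ht]
    calc (1 : ℝ) = ∏ _i : Fin k, (1 : ℝ) := by simp
      _ ≤ _ := Finset.prod_le_prod (fun i _ => zero_le_one) fun i _ => cc_ge_one a ha' (m i)
  have ht0 : 0 < t := by linarith
  have hte : t ≤ Real.exp ((∑ i, ((d i : ℝ) + e i) ^ 2) / a) := by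
    rw [ht, Finset.sum_div, Real.exp_sum]
    refine Finset.prod_le_prod (fun i _ => cc_nonneg a ha' (m i)) fun i _ => ?_
    have h := cc_le a ha' (m i)
    have h2 : ((m i : ℕ) : ℝ) = (d i : ℝ) + e i := by
      rw [hm]
      simp
    rwa [h2] at h
  -- the integral of the root
  set G : (Fin k → ℕ) → ℝ := fun w => gg a m w with hGdef
  have hGn : ∀ w, 0 ≤ G w := fun w => nng m w
  have hGi : Integrable G μ := intg m
  have hG1' : Integrable (fun w => G w * G w) μ := hG1
  have hG2' : ∫ w, G w * G w ∂μ = t := hG2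
  have hGint : ∫ w, G w ∂μ = 1 := one_int m
  have hri : Integrable (fun w => Real.sqrt (G w)) μ := by
    refine Integrable.mono' ((integrable_const (1 : ℝ)).add hGi)
      (measurable_of_countable _).aestronglyMeasurable (Filter.Eventually.of_forall fun w => ?_)
    rw [Real.norm_eq_abs, abs_of_nonneg (Real.sqrt_nonneg _), Pi.add_apply]
    rw [Real.sqrt_le_left (by linarith [hGn w])]
    nlinarith [hGn w]
  set R : ℝ := Real.sqrt t with hR
  have hR0 : 0 < R := Real.sqrt_pos.2 ht0
  have hRR : R * R = t := Real.mul_self_sqrt ht0.le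
  set X : ℝ := ∫ w, Real.sqrt (G w) ∂μ with hX
  have hX1 : 1 / R ≤ X := by
    have h1 : ∀ w, 3 / (2 * R) * G w - 1 / (2 * R ^ 3) * (G w * G w) ≤ Real.sqrt (G w) := by
      intro w
      set s : ℝ := Real.sqrt (G w) with hs
      have hs0 : 0 ≤ s := Real.sqrt_nonneg _
      have hss : G w = s * s := (Real.mul_self_sqrt (hGn w)).symm
      rw [hss]
      have h2 : s - (3 / (2 * R) * (s * s) - 1 / (2 * R ^ 3) * (s * s * (s * s))) =
          s * ((R - s) ^ 2 * (2 * R + s)) / (2 * R ^ 3) := by
        field_simp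
        ring
      have h3 : 0 ≤ s * ((R - s) ^ 2 * (2 * R + s)) / (2 * R ^ 3) := by positivity
      linarith
    have h2 : ∫ w, (3 / (2 * R) * G w - 1 / (2 * R ^ 3) * (G w * G w)) ∂μ ≤ X :=
      integral_mono ((hGi.const_mul _).sub (hG1'.const_mul _)) hri h1
    rw [integral_sub (hGi.const_mul _) (hG1'.const_mul _), integral_const_mul, integral_const_mul,
      hGint, hG2'] at h2
    have h3 : 3 / (2 * R) * 1 - 1 / (2 * R ^ 3) * t = 1 / R := by
      rw [← hRR]
      field_simp
      ring
    rwa [h3] at h2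
  have hX0 : 0 < X := lt_of_lt_of_le (by positivity) hX1
  -- the minimum
  have hmin : Integrable (fun w => min (gg a d w) (gg a e w)) μ := by
    refine Integrable.mono' (intg d) (measurable_of_countable _).aestronglyMeasurable
      (Filter.Eventually.of_forall fun w => ?_)
    rw [Real.norm_eq_abs, abs_of_nonneg (le_min (nng d w) (nng e w))]
    exact min_le_left _ _
  set A : ℝ := ∫ w, min (gg a d w) (gg a e w) ∂μ with hA
  have hsum : Integrable (fun w => gg a d w + gg a e w) μ := (intg d).add (intg e)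
  have hsum2 : ∫ w, (gg a d w + gg a e w) ∂μ = 2 := by
    rw [integral_add (intg d) (intg e), one_int d, one_int e]
    norm_num
  have hXA : X ^ 2 ≤ 2 * A := by
    have h1 : ∀ w, Real.sqrt (G w) ≤ 1 / X * min (gg a d w) (gg a e w) +
        X / 4 * (gg a d w + gg a e w) := by
      intro w
      have hx := nng d w
      have hy := nng e w
      have h2 : G w = gg a d w * gg a e w := (hfg w).symm
      rw [h2]
      set x := gg a d w
      set y := gg a e w
      have h3 : x * y = min x y * max x y := (min_mul_max x y).symm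
      have h4 : max x y ≤ x + y := max_le (by linarith) (by linarith)
      have h5 : 0 ≤ min x y := le_min hx hy
      have h6 : 0 ≤ max x y := le_max_of_le_left hx
      rw [Real.sqrt_le_left (by positivity), h3]
      have h7 : min x y * max x y ≤ (1 / X * min x y + X / 4 * max x y) ^ 2 := by
        have h8 : (1 / X * min x y + X / 4 * max x y) ^ 2 =
            (1 / X * min x y - X / 4 * max x y) ^ 2 + min x y * max x y := by
          field_simp
          ring
        rw [h8]
        nlinarith [sq_nonneg (1 / X * min x y - X / 4 * max x y)]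
      refine h7.trans (pow_le_pow_left₀ (by positivity) ?_ 2)
      have h9 : X / 4 * max x y ≤ X / 4 * (x + y) := mul_le_mul_of_nonneg_left h4 (by positivity)
      linarith
    have h2 : X ≤ ∫ w, (1 / X * min (gg a d w) (gg a e w) + X / 4 * (gg a d w + gg a e w)) ∂μ :=
      integral_mono hri ((hmin.const_mul _).add (hsum.const_mul _)) h1
    rw [integral_add (hmin.const_mul _) (hsum.const_mul _), integral_const_mul,
      integral_const_mul, hsum2] at h2
    have h3 : X * X ≤ X * (1 / X * A + X / 4 * 2) := mul_le_mul_of_nonneg_left h2 hX0.le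
    have h4 : X * (1 / X * A + X / 4 * 2) = A + X * X / 2 := by
      field_simp
      ring
    rw [h4] at h3
    nlinarith
  -- the difference
  have hdiff : |∫ w, φ w * gg a d w ∂μ - ∫ w, φ w * gg a e w ∂μ| ≤ 2 - 2 * A := by
    rw [← integral_sub hf1 hg1]
    refine (abs_integral_le_integral_abs).trans ?_
    have h1 : ∫ w, |φ w * gg a d w - φ w * gg a e w| ∂μ ≤
        ∫ w, ((gg a d w + gg a e w) - 2 * min (gg a d w) (gg a e w)) ∂μ := by
      refine integral_mono (hf1.sub hg1).abs (hsum.sub (hmin.const_mul _)) fun w => ?_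
      show |φ w * gg a d w - φ w * gg a e w| ≤ (gg a d w + gg a e w) - 2 * min (gg a d w) (gg a e w)
      rw [← mul_sub, abs_mul]
      have h2 : |gg a d w - gg a e w| = (gg a d w + gg a e w) - 2 * min (gg a d w) (gg a e w) := by
        rcases le_total (gg a d w) (gg a e w) with h | h
        · rw [min_eq_left h, abs_of_nonpos (by linarith)]
          ring
        · rw [min_eq_right h, abs_of_nonneg (by linarith)]
          ring
      rw [← h2]
      exact mul_le_of_le_one_left (abs_nonneg _) (hφ w)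
    refine h1.trans (le_of_eq ?_)
    rw [integral_sub hsum (hmin.const_mul _), integral_const_mul, hsum2]
  refine hdiff.trans ?_
  have h1 : Real.exp (-(∑ i, ((d i : ℝ) + e i) ^ 2) / a) ≤ 1 / t := by
    rw [neg_div, Real.exp_neg, one_div]
    exact inv_anti₀ ht0 hte
  have h2 : 1 / t ≤ X ^ 2 := by
    have h3 : (1 / R) ^ 2 = 1 / t := by rw [div_pow, sq R, hRR, one_pow]
    rw [← h3]
    exact pow_le_pow_left₀ (by positivity) hX1 2
  linarith

/-- **Module AFF.** -/
theorem t_AFF : S_AFF := by
  intro a ha k u v φ hφ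
  have h := core a ha k (fun i => u i - min (u i) (v i)) (fun i => v i - min (u i) (v i))
    (fun i => by omega) (fun w => φ (w + fun i => min (u i) (v i))) (fun z => hφ _)
  have h1 : ∀ w : Fin k → ℕ, (w + fun i => u i - min (u i) (v i)) + (fun i => min (u i) (v i)) = w + u := by
    intro w
    funext i
    simp only [Pi.add_apply]
    omega
  have h2 : ∀ w : Fin k → ℕ, (w + fun i => v i - min (u i) (v i)) + (fun i => min (u i) (v i)) = w + v := by
    intro w
    funext i
    simp only [Pi.add_apply]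
    omega
  simp only [h1, h2] at h
  have h3 : ∀ i, (((u i - min (u i) (v i) : ℕ) : ℝ) + ((v i - min (u i) (v i) : ℕ) : ℝ)) ^ 2 =
      ((u i : ℝ) - v i) ^ 2 := by
    intro i
    rcases le_total (u i) (v i) with h | h
    · rw [min_eq_left h, Nat.sub_self, Nat.cast_sub h]
      push_cast
      ring
    · rw [min_eq_right h, Nat.sub_self, Nat.cast_sub h]
      push_cast
      ring
  simp only [h3] at h
  exact h

end Pool.Agent.H50.OM
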