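import Pool.Agent.H5.OM.C2a

set_option autoImplicit false

/-!
# Module C3: the modulus of the characteristic function of one coordinate
-/

namespace Pool.Agent.H50.OM

open Finset hiding val
open Pool.Agent.H19.OM Pool.Agent.H5.OM

theorem geo6 (x : ℝ) (hx0 : 0 ≤ x) (hx1 : x ≤ 1 / 2) (L : ℕ) :
    ∑ a ∈ Icc 1 L, (2 * (a : ℝ) - 1) * x ^ a ≤ 6 * x := by
  have hx : 0 < 1 - x := by linarith
  have h1 : ∑ a ∈ Icc 1 L, (2 * (a : ℝ) - 1) * x ^ a =
      (x * (1 + x) - x ^ (L + 1) * ((2 * L + 1) - (2 * L - 1) * x)) / (1 - x) ^ 2 := by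
    have hx' : (1 - x) ≠ 0 := hx.ne'
    induction L with
    | zero =>
      simp only [Nat.cast_zero]
      rw [eq_div_iff (pow_ne_zero 2 hx')]
      simp
    | succ L ih =>
      rw [Finset.sum_Icc_succ_top (by omega), ih]
      push_cast
      field_simp
      ring
  rw [h1]
  have h2 : 0 < (1 - x) ^ 2 := by positivity
  have h3 : 0 ≤ x ^ (L + 1) * ((2 * L + 1) - (2 * L - 1) * x) := by
    apply mul_nonneg (pow_nonneg hx0 _)
    have : (0 : ℝ) ≤ L := Nat.cast_nonneg L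
    nlinarith
  rw [div_le_iff₀ h2]
  have h4 : x * (1 + x) ≤ 6 * x * (1 - x) ^ 2 := by
    have h5 : 1 + x ≤ 6 * (1 - x) ^ 2 := by nlinarith
    calc x * (1 + x) ≤ x * (6 * (1 - x) ^ 2) := mul_le_mul_of_nonneg_left h5 hx0
      _ = _ := by ring
  linarith

theorem sq_val (p L : ℕ) (hp : p.Prime) :
    ∑ r ∈ range (p ^ L), (val p L r : ℝ) ^ 2 ≤ (p : ℝ) ^ L * (6 / p) := by
  have hp0 : (0 : ℝ) < p := by exact_mod_cast hp.pos
  have hp2 : (2 : ℝ) ≤ p := by exact_mod_cast hp.two_le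
  calc ∑ r ∈ range (p ^ L), (val p L r : ℝ) ^ 2
      ≤ ∑ r ∈ range (p ^ L), ∑ a ∈ Icc 1 L, (2 * (a : ℝ) - 1) * ind (p ^ a) r := by
        refine Finset.sum_le_sum fun r _ => ?_
        rw [val_eq]
        exact sq_le _ (fun a => ⟨ind_nonneg _ _, ind_le _ _⟩) L
    _ = ∑ a ∈ Icc 1 L, (2 * (a : ℝ) - 1) * ∑ r ∈ range (p ^ L), ind (p ^ a) (r + 0) := by
        rw [Finset.sum_comm]
        refine Finset.sum_congr rfl fun a _ => ?_
        rw [Finset.mul_sum]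
        rfl
    _ = ∑ a ∈ Icc 1 L, (p : ℝ) ^ L * ((2 * (a : ℝ) - 1) * (1 / (p : ℝ)) ^ a) := by
        refine Finset.sum_congr rfl fun a ha => ?_
        rw [sum_ind (p ^ a) (p ^ L) 0 (pow_pos hp.pos a) (pow_dvd_pow p (Finset.mem_Icc.1 ha).2)]
        push_cast
        rw [one_div, inv_pow]
        ring
    _ = (p : ℝ) ^ L * ∑ a ∈ Icc 1 L, (2 * (a : ℝ) - 1) * (1 / (p : ℝ)) ^ a := by
        rw [Finset.mul_sum]
    _ ≤ (p : ℝ) ^ L * (6 * (1 / (p : ℝ))) := by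
        refine mul_le_mul_of_nonneg_left (geo6 _ (by positivity) ?_ L) (by positivity)
        exact one_div_le_one_div_of_le (by norm_num) hp2
    _ = _ := by ring

theorem psi_re (p L : ℕ) (θ : ℝ) :
    (psi p L θ).re = (∑ r ∈ range (p ^ L), Real.cos (θ * val p L r)) / (p : ℝ) ^ L := by
  unfold psi
  have e : (p : ℂ) ^ L = (((p : ℝ) ^ L : ℝ) : ℂ) := by push_cast; rfl
  rw [e, Complex.div_ofReal_re, Complex.re_sum]
  congr 1
  refine Finset.sum_congr rfl fun r _ => ?_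
  rw [Complex.exp_ofReal_mul_I_re]

theorem t_C3 : S_C3 := by
  intro p L m θ hp _ hθ
  have hp0 : (0 : ℝ) < p := by exact_mod_cast hp.pos
  have hq : (0 : ℝ) < (p : ℝ) ^ L := by positivity
  refine ⟨?_, ?_⟩
  · unfold psi
    rw [norm_div, norm_pow, Complex.norm_natCast, div_le_one hq]
    refine (norm_sum_le _ _).trans ?_
    have : ∀ r ∈ range (p ^ L), ‖Complex.exp (((θ * val p L r : ℝ) : ℂ) * Complex.I)‖ = 1 := by
      intro r _
      exact Complex.norm_exp_ofReal_mul_I _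
    rw [Finset.sum_congr rfl this]
    simp
  · have h1 : 1 - 3 * θ ^ 2 / p ≤ ‖psi p L θ‖ := by
      refine le_trans ?_ ((le_abs_self _).trans (Complex.abs_re_le_norm _))
      rw [psi_re, le_div_iff₀ hq]
      have h2 : ∑ r ∈ range (p ^ L), (1 - θ ^ 2 / 2 * (val p L r : ℝ) ^ 2) ≤
          ∑ r ∈ range (p ^ L), Real.cos (θ * val p L r) := by
        refine Finset.sum_le_sum fun r _ => ?_
        have := Real.one_sub_sq_div_two_le_cos (x := θ * val p L r)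
        calc 1 - θ ^ 2 / 2 * (val p L r : ℝ) ^ 2 = 1 - (θ * val p L r) ^ 2 / 2 := by ring
          _ ≤ _ := this
      refine le_trans ?_ h2
      rw [Finset.sum_sub_distrib, ← Finset.mul_sum]
      have h3 := mul_le_mul_of_nonneg_left (sq_val p L hp) (show 0 ≤ θ ^ 2 / 2 by positivity)
      have h4 : ∑ r ∈ range (p ^ L), (1 : ℝ) = (p : ℝ) ^ L := by simp
      rw [h4]
      calc (1 - 3 * θ ^ 2 / p) * (p : ℝ) ^ L = (p : ℝ) ^ L - θ ^ 2 / 2 * ((p : ℝ) ^ L * (6 / p)) := by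
            ring
        _ ≤ _ := by linarith
    have h5 : 3 * θ ^ 2 / p ≤ 1 := by rwa [div_le_one hp0]
    have h6 : (1 + ((2 * m : ℕ) : ℝ) * (-(3 * θ ^ 2 / p))) ≤ (1 + -(3 * θ ^ 2 / p)) ^ (2 * m) :=
      one_add_mul_le_pow (by linarith) (2 * m)
    calc 1 - 6 * m * θ ^ 2 / p = 1 + ((2 * m : ℕ) : ℝ) * (-(3 * θ ^ 2 / p)) := by push_cast; ring
      _ ≤ _ := h6
      _ ≤ _ := pow_le_pow_left₀ (by linarith) (by linarith) _

end Pool.Agent.H50.OM
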