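import Pool.Agent.H19.OM.Stm3

set_option autoImplicit false

/-!
# Module K4: from the period to the integers up to `N` by the truncated Moebius inversion
-/

namespace Pool.Agent.H50.OM

open Finset hiding val
open Pool.Agent.H19.OM

/-- the triples -/
def U (S : Finset ℕ) (Lf : ℕ → ℕ) (k : ℕ) : Finset (ℕ × ℕ × ℕ) :=
  (range k) ×ˢ (S.biUnion fun p => (Icc 1 (Lf p)).image (Prod.mk p))

theorem mem_U {S : Finset ℕ} {Lf : ℕ → ℕ} {k : ℕ} {x : ℕ × ℕ × ℕ} :
    x ∈ U S Lf k ↔ x.1 < k ∧ x.2.1 ∈ S ∧ 1 ≤ x.2.2 ∧ x.2.2 ≤ Lf x.2.1 := by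
  obtain ⟨i, p, a⟩ := x
  simp only [U, Finset.mem_product, Finset.mem_range, Finset.mem_biUnion, Finset.mem_image,
    Finset.mem_Icc, Prod.mk.injEq]
  constructor
  · rintro ⟨h1, q, hq, b, hb, rfl, rfl⟩
    exact ⟨h1, hq, hb.1, hb.2⟩
  · rintro ⟨h1, h2, h3, h4⟩
    exact ⟨h1, p, h2, a, ⟨h3, h4⟩, rfl, rfl⟩

theorem card_U (S : Finset ℕ) (Lf : ℕ → ℕ) (k : ℕ) : (U S Lf k).card ≤ k * ∑ p ∈ S, Lf p := by
  unfold U
  rw [Finset.card_product, Finset.card_range]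
  refine Nat.mul_le_mul_left k (Finset.card_biUnion_le.trans (Finset.sum_le_sum fun p _ => ?_))
  exact (Finset.card_image_le).trans (by simp)

/-- the divisibilities -/
def E (S : Finset ℕ) (Lf : ℕ → ℕ) (k n : ℕ) : Finset (ℕ × ℕ × ℕ) :=
  (U S Lf k).filter fun x => x.2.1 ^ x.2.2 ∣ n + x.1

theorem card_fib (S : Finset ℕ) (Lf : ℕ → ℕ) (k n i : ℕ) (hi : i < k) :
    ((E S Lf k n).filter fun x => x.1 = i).card = ∑ p ∈ S, val p (Lf p) (n + i) := by
  unfold val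
  rw [← Finset.card_sigma]
  refine Finset.card_nbij' (fun x => (⟨x.2.1, x.2.2⟩ : Σ _ : ℕ, ℕ)) (fun z => (i, z.1, z.2)) ?_ ?_ ?_ ?_
  · intro x hx
    simp only [E, Finset.coe_filter, Finset.mem_filter, Set.mem_ofPred_eq, mem_U] at hx
    obtain ⟨⟨⟨h1, h2, h3, h4⟩, h5⟩, h6⟩ := hx
    simp only [Finset.coe_sigma, Set.mem_sigma_iff, Finset.mem_coe, Finset.mem_filter, Finset.mem_Icc]
    exact ⟨h2, ⟨h3, h4⟩, by rw [← h6]; exact h5⟩
  · intro z hz
    simp only [Finset.coe_sigma, Set.mem_sigma_iff, Finset.mem_coe, Finset.mem_filter,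
      Finset.mem_Icc] at hz
    simp only [E, Finset.coe_filter, Finset.mem_filter, Set.mem_ofPred_eq, mem_U]
    exact ⟨⟨⟨hi, hz.1, hz.2.1.1, hz.2.1.2⟩, hz.2.2⟩, trivial⟩
  · intro x hx
    simp only [E, Finset.coe_filter, Finset.mem_filter, Set.mem_ofPred_eq, mem_U] at hx
    rw [← hx.2]
  · intro z _
    rfl

theorem card_E (S : Finset ℕ) (Lf : ℕ → ℕ) (k n : ℕ) :
    (E S Lf k n).card = ∑ i : Fin k, ∑ p ∈ S, val p (Lf p) (n + i) := by
  have h : ∀ x ∈ E S Lf k n, (fun x : ℕ × ℕ × ℕ => x.1) x ∈ range k := by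
    intro x hx
    exact Finset.mem_range.2 (mem_U.1 (Finset.mem_filter.1 hx).1).1
  rw [Finset.card_eq_sum_card_fiberwise h, Finset.sum_range]
  exact Finset.sum_congr rfl fun i _ => card_fib S Lf k n i i.2

/-- the indicator -/
noncomputable def D (T : Finset (ℕ × ℕ × ℕ)) (n : ℕ) : ℝ :=
  if ∀ x ∈ T, x.2.1 ^ x.2.2 ∣ n + x.1 then 1 else 0

theorem sub_E {S : Finset ℕ} {Lf : ℕ → ℕ} {k n : ℕ} {T : Finset (ℕ × ℕ × ℕ)} (hT : T ⊆ U S Lf k) :
    T ⊆ E S Lf k n ↔ ∀ x ∈ T, x.2.1 ^ x.2.2 ∣ n + x.1 := by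
  constructor
  · intro h x hx
    exact (Finset.mem_filter.1 (h hx)).2
  · intro h x hx
    exact Finset.mem_filter.2 ⟨hT hx, h x hx⟩

/-- the sums over the small subsets of `E n` -/
theorem sum_small (S : Finset ℕ) (Lf : ℕ → ℕ) (k n : ℕ) (c : Finset (ℕ × ℕ × ℕ) → ℝ)
    (P : ℕ → Prop) [DecidablePred P] :
    ∑ T ∈ (E S Lf k n).powerset with P T.card, c T =
      ∑ T ∈ (U S Lf k).powerset with P T.card, c T * D T n := by
  have e : ((E S Lf k n).powerset.filter fun T => P T.card) =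
      ((U S Lf k).powerset.filter fun T => P T.card).filter
        fun T => ∀ x ∈ T, x.2.1 ^ x.2.2 ∣ n + x.1 := by
    ext T
    simp only [Finset.mem_filter, Finset.mem_powerset]
    constructor
    · rintro ⟨h1, h2⟩
      have h3 : T ⊆ U S Lf k := h1.trans (Finset.filter_subset _ _)
      exact ⟨⟨h3, h2⟩, (sub_E h3).1 h1⟩
    · rintro ⟨⟨h1, h2⟩, h3⟩
      exact ⟨(sub_E h1).2 h3, h2⟩
  rw [e, Finset.sum_filter]
  refine Finset.sum_congr rfl fun T _ => ?_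
  unfold D
  split_ifs <;> simp

/-- the number of the subsets with `R` elements -/
theorem choose_E (S : Finset ℕ) (Lf : ℕ → ℕ) (k n R : ℕ) :
    ((E S Lf k n).card.choose R : ℝ) = ∑ T ∈ (U S Lf k).powerset with T.card = R, D T n := by
  have h := sum_small S Lf k n (fun _ => 1) (fun j => j = R)
  simp only [one_mul] at h
  rw [← h, Finset.sum_const, nsmul_eq_mul, mul_one, ← Finset.powersetCard_eq_filter,
    Finset.card_powersetCard]

theorem pow_bound (u R : ℕ) (z : ℝ) (hz : 0 ≤ z) (V : Finset (ℕ × ℕ × ℕ)) (hV : V.card ≤ u) :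
    ∑ T ∈ V.powerset with T.card ≤ R, z ^ T.card ≤ (1 + u * z) ^ R := by
  have h1 : ∑ T ∈ V.powerset with T.card ≤ R, z ^ T.card =
      ∑ T ∈ V.powerset, (fun j : ℕ => if j ≤ R then z ^ j else 0) T.card := by
    rw [Finset.sum_filter]
  rw [h1]
  refine (Finset.sum_powerset_apply_card (fun j : ℕ => if j ≤ R then z ^ j else 0)).trans_le ?_
  have h2 : (1 + u * z) ^ R = ∑ j ∈ range (R + 1), (u * z) ^ j * (R.choose j : ℝ) := by
    rw [add_comm, add_pow]
    simp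
  rw [h2]
  calc ∑ j ∈ range (V.card + 1), V.card.choose j • (if j ≤ R then z ^ j else 0)
      ≤ ∑ j ∈ range (V.card + 1), if j ≤ R then (u * z) ^ j * (R.choose j : ℝ) else 0 := by
        refine Finset.sum_le_sum fun j _ => ?_
        split_ifs with h
        · rw [nsmul_eq_mul, mul_pow]
          have h3 : (V.card.choose j : ℝ) ≤ (u : ℝ) ^ j := by
            have := (Nat.choose_le_pow V.card j).trans (Nat.pow_le_pow_left hV j)
            exact_mod_cast this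
          have h4 : (1 : ℝ) ≤ R.choose j := by exact_mod_cast Nat.choose_pos h
          calc (V.card.choose j : ℝ) * z ^ j ≤ (u : ℝ) ^ j * z ^ j :=
                mul_le_mul_of_nonneg_right h3 (pow_nonneg hz j)
            _ = ((u : ℝ) ^ j * z ^ j) * 1 := (mul_one _).symm
            _ ≤ _ := mul_le_mul_of_nonneg_left h4 (by positivity)
        · simp
    _ = ∑ j ∈ (range (V.card + 1)).filter (fun j => j ≤ R), (u * z) ^ j * (R.choose j : ℝ) := by
        rw [Finset.sum_filter]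
    _ ≤ _ := by
        refine Finset.sum_le_sum_of_subset_of_nonneg ?_ fun j _ _ => by positivity
        intro j hj
        exact Finset.mem_range.2 (Nat.lt_succ_of_le (Finset.mem_filter.1 hj).2)

theorem choose_le (t R : ℕ) : (t.choose R : ℝ) ≤ (25 : ℝ) ^ t / 24 ^ R := by
  rw [le_div_iff₀ (by positivity)]
  rcases le_or_gt R t with h | h
  · have h1 : (25 : ℝ) ^ t = ∑ j ∈ range (t + 1), (24 : ℝ) ^ j * (t.choose j : ℝ) := by
      rw [show (25 : ℝ) = 24 + 1 by norm_num, add_pow]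
      simp
    rw [h1, mul_comm]
    exact Finset.single_le_sum (f := fun j : ℕ => (24 : ℝ) ^ j * (t.choose j : ℝ))
      (fun j _ => by positivity) (Finset.mem_range.2 (Nat.lt_succ_of_le h))
  · rw [Nat.choose_eq_zero_of_lt h]
    simp

/-- one indicator -/
theorem one_D (hK2 : S_K2) {S : Finset ℕ} {Lf : ℕ → ℕ} {k y N : ℕ} (hN : 1 ≤ N)
    (hS : ∀ p ∈ S, p.Prime ∧ p ^ Lf p ≤ y) {T : Finset (ℕ × ℕ × ℕ)} (hT : T ⊆ U S Lf k) :
    |(∑ n ∈ Icc 1 N, D T n) / N - (∑ n ∈ range (Mo Lf S), D T n) / Mo Lf S| ≤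
      2 * (y : ℝ) ^ T.card / N := by
  have hM : 1 ≤ Mo Lf S := by
    unfold Mo
    exact Nat.one_le_iff_ne_zero.2 (Finset.prod_ne_zero_iff.2 fun p hp =>
      pow_ne_zero _ (hS p hp).1.ne_zero)
  have h := hK2 T (Mo Lf S) N hN hM (by
    intro x hx
    obtain ⟨-, h2, h3, h4⟩ := mem_U.1 (hT hx)
    refine ⟨(hS _ h2).1.one_le, (pow_dvd_pow _ h4).trans ?_⟩
    unfold Mo
    exact Finset.dvd_prod_of_mem (fun p => p ^ Lf p) h2)
  unfold D
  rw [Finset.sum_boole, Finset.sum_boole]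
  refine h.trans ?_
  have hN' : (0 : ℝ) < N := by exact_mod_cast hN
  refine div_le_div_of_nonneg_right (mul_le_mul_of_nonneg_left ?_ (by norm_num)) hN'.le
  rw [← Finset.prod_const]
  refine Finset.prod_le_prod (fun x _ => by positivity) fun x hx => ?_
  obtain ⟨-, h2, h3, h4⟩ := mem_U.1 (hT hx)
  have h5 : x.2.1 ^ x.2.2 ≤ y := (Nat.pow_le_pow_right (hS _ h2).1.pos h4).trans (hS _ h2).2
  exact_mod_cast h5

/-- linear combinations of the indicators -/
theorem comb (hK2 : S_K2) {S : Finset ℕ} {Lf : ℕ → ℕ} {k y N : ℕ} (hN : 1 ≤ N)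
    (hS : ∀ p ∈ S, p.Prime ∧ p ^ Lf p ≤ y) (𝒯 : Finset (Finset (ℕ × ℕ × ℕ)))
    (hT : ∀ T ∈ 𝒯, T ⊆ U S Lf k) (c : Finset (ℕ × ℕ × ℕ) → ℝ) :
    |(∑ n ∈ Icc 1 N, ∑ T ∈ 𝒯, c T * D T n) / N -
      (∑ n ∈ range (Mo Lf S), ∑ T ∈ 𝒯, c T * D T n) / Mo Lf S| ≤
      ∑ T ∈ 𝒯, |c T| * (2 * (y : ℝ) ^ T.card / N) := by
  have e : (∑ n ∈ Icc 1 N, ∑ T ∈ 𝒯, c T * D T n) / N -
      (∑ n ∈ range (Mo Lf S), ∑ T ∈ 𝒯, c T * D T n) / Mo Lf S =
      ∑ T ∈ 𝒯, c T * ((∑ n ∈ Icc 1 N, D T n) / N - (∑ n ∈ range (Mo Lf S), D T n) / Mo Lf S) := by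
    rw [Finset.sum_comm, Finset.sum_comm (s := range (Mo Lf S)), Finset.sum_div, Finset.sum_div,
      ← Finset.sum_sub_distrib]
    refine Finset.sum_congr rfl fun T _ => ?_
    rw [← Finset.mul_sum, ← Finset.mul_sum]
    ring
  rw [e]
  refine (Finset.abs_sum_le_sum_abs _ _).trans (Finset.sum_le_sum fun T hT' => ?_)
  rw [abs_mul]
  exact mul_le_mul_of_nonneg_left (one_D hK2 hN hS (hT T hT')) (abs_nonneg _)

theorem mean_sub_le (s : Finset ℕ) (M : ℝ) (hM : 0 ≤ M) (f g h : ℕ → ℝ) (hfg : ∀ n ∈ s, |f n - g n| ≤ h n) :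
    |(∑ n ∈ s, f n) / M - (∑ n ∈ s, g n) / M| ≤ (∑ n ∈ s, h n) / M := by
  rw [← sub_div, abs_div, abs_of_nonneg hM, ← Finset.sum_sub_distrib]
  exact div_le_div_of_nonneg_right ((Finset.abs_sum_le_sum_abs _ _).trans (Finset.sum_le_sum hfg)) hM

theorem t_K4 (hK1 : S_K1) (hK2 : S_K2) : S_K4 := by
  intro S Lf k R W y N hN hy hS hW φ hφ
  have hN' : (0 : ℝ) < N := by exact_mod_cast hN
  have hy' : (1 : ℝ) ≤ y := by exact_mod_cast hy
  have hcard : (U S Lf k).card ≤ W := (card_U S Lf k).trans hW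
  set F : Finset (ℕ × ℕ × ℕ) → ℝ := fun G =>
    φ fun i : Fin k => (G.filter fun x => x.1 = (i : ℕ)).card with hF
  obtain ⟨c, hc, hcE⟩ := hK1 F R fun G => hφ _
  have hφE : ∀ n : ℕ, φ (fun i : Fin k => ∑ p ∈ S, val p (Lf p) (n + i)) = F (E S Lf k n) := by
    intro n
    rw [hF]
    dsimp only
    congr 1
    funext i
    exact (card_fib S Lf k n i i.2).symm
  set P : ℕ → ℝ := fun n => ∑ T ∈ (U S Lf k).powerset with T.card ≤ R, c T * D T n with hP
  have hFP : ∀ n, |F (E S Lf k n) - P n| ≤ 2 * 3 ^ R * ((E S Lf k n).card.choose R : ℝ) := by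
    intro n
    have h1 := hcE (E S Lf k n)
    rw [sum_small S Lf k n c (fun j => j ≤ R)] at h1
    refine h1.trans ?_
    split_ifs
    · positivity
    · exact le_rfl
  have hsub : ∀ (Q : ℕ → Prop) [DecidablePred Q], ∀ T ∈ (U S Lf k).powerset.filter (fun T => Q T.card),
      T ⊆ U S Lf k := fun Q _ T hT => Finset.mem_powerset.1 (Finset.mem_filter.1 hT).1
  -- the polynomials
  have h1 : |(∑ n ∈ Icc 1 N, P n) / N - (∑ n ∈ range (Mo Lf S), P n) / Mo Lf S| ≤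
      2 / N * (1 + W * (2 * y)) ^ R := by
    refine (comb hK2 hN hS _ (hsub (fun j => j ≤ R)) c).trans ?_
    calc ∑ T ∈ (U S Lf k).powerset with T.card ≤ R, |c T| * (2 * (y : ℝ) ^ T.card / N)
        ≤ ∑ T ∈ (U S Lf k).powerset with T.card ≤ R, 2 / N * (2 * (y : ℝ)) ^ T.card := by
          refine Finset.sum_le_sum fun T _ => ?_
          calc |c T| * (2 * (y : ℝ) ^ T.card / N) ≤ 2 ^ T.card * (2 * (y : ℝ) ^ T.card / N) :=
                mul_le_mul_of_nonneg_right (hc T) (by positivity)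
            _ = _ := by rw [mul_pow]; ring
      _ = 2 / N * ∑ T ∈ (U S Lf k).powerset with T.card ≤ R, (2 * (y : ℝ)) ^ T.card := by
          rw [Finset.mul_sum]
      _ ≤ _ := mul_le_mul_of_nonneg_left (pow_bound W R _ (by positivity) _ hcard) (by positivity)
  -- the binomial coefficients
  set X : ℝ := (∑ n ∈ range (Mo Lf S), (25 : ℝ) ^ (∑ i : Fin k, ∑ p ∈ S, val p (Lf p) (n + i))) /
    Mo Lf S with hX
  have hX1 : (∑ n ∈ range (Mo Lf S), ((E S Lf k n).card.choose R : ℝ)) / Mo Lf S ≤ X / 24 ^ R := by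
    rw [hX, div_right_comm]
    refine div_le_div_of_nonneg_right ?_ (by positivity)
    rw [Finset.sum_div]
    refine Finset.sum_le_sum fun n _ => ?_
    rw [← card_E]
    exact choose_le _ _
  have h2 : (∑ n ∈ Icc 1 N, ((E S Lf k n).card.choose R : ℝ)) / N ≤
      X / 24 ^ R + 2 / N * (W * y) ^ R := by
    have h3 := comb hK2 hN hS _ (hsub (fun j => j = R)) (fun _ => 1)
    simp only [one_mul, abs_one] at h3
    simp_rw [← choose_E S Lf k _ R] at h3
    have h4 : ∑ T ∈ (U S Lf k).powerset with T.card = R, 2 * (y : ℝ) ^ T.card / N ≤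
        2 / N * (W * y) ^ R := by
      have h5 : ∀ T ∈ (U S Lf k).powerset.filter (fun T => T.card = R),
          2 * (y : ℝ) ^ T.card / N = 2 * (y : ℝ) ^ R / N := by
        intro T hT
        rw [(Finset.mem_filter.1 hT).2]
      rw [Finset.sum_congr rfl h5, Finset.sum_const, nsmul_eq_mul, ← Finset.powersetCard_eq_filter,
        Finset.card_powersetCard, mul_pow]
      have h6 : ((U S Lf k).card.choose R : ℝ) ≤ (W : ℝ) ^ R := by
        have := (Nat.choose_le_pow (U S Lf k).card R).trans (Nat.pow_le_pow_left hcard R)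
        exact_mod_cast this
      calc ((U S Lf k).card.choose R : ℝ) * (2 * (y : ℝ) ^ R / N) ≤
            (W : ℝ) ^ R * (2 * (y : ℝ) ^ R / N) := mul_le_mul_of_nonneg_right h6 (by positivity)
        _ = _ := by ring
    have h7 := (abs_le.1 h3).2
    linarith
  have hXnn : 0 ≤ X := by rw [hX]; positivity
  have h8 := mean_sub_le (Icc 1 N) N hN'.le _ P _ fun n _ => hFP n
  have h9 := mean_sub_le (range (Mo Lf S)) (Mo Lf S) (Nat.cast_nonneg _) _ P _ fun n _ => hFP n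
  rw [← Finset.mul_sum, mul_div_assoc] at h8 h9
  have h10 : |empc Lf S N φ - J Lf S φ| ≤
      2 * 3 ^ R * (X / 24 ^ R + 2 / N * (W * y) ^ R) + 2 / N * (1 + W * (2 * y)) ^ R +
        2 * 3 ^ R * (X / 24 ^ R) := by
    unfold empc J
    simp_rw [hφE]
    have h11 := mul_le_mul_of_nonneg_left h2 (show (0 : ℝ) ≤ 2 * 3 ^ R by positivity)
    have h12 := mul_le_mul_of_nonneg_left hX1 (show (0 : ℝ) ≤ 2 * 3 ^ R by positivity)
    have h13 := abs_le.1 (h8.trans h11)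
    have h14 := abs_le.1 (h9.trans h12)
    have h15 := abs_le.1 h1
    rw [abs_le]
    constructor <;> linarith [h13.1, h13.2, h14.1, h14.2, h15.1, h15.2]
  refine h10.trans ?_
  have e1 : (3 : ℝ) ^ R * (X / 24 ^ R) = X / 8 ^ R := by
    rw [show (24 : ℝ) = 3 * 8 by norm_num, mul_pow]
    field_simp
  have hb : (1 + (W : ℝ) * (2 * y)) ^ R ≤ (1 + 3 * (W : ℝ) * y) ^ R := by
    refine pow_le_pow_left₀ (by positivity) ?_ R
    have : (0 : ℝ) ≤ (W : ℝ) * y := by positivity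
    nlinarith
  have hb2 : (3 : ℝ) ^ R * ((W : ℝ) * y) ^ R ≤ (1 + 3 * (W : ℝ) * y) ^ R := by
    rw [← mul_pow]
    refine pow_le_pow_left₀ (by positivity) ?_ R
    have : (0 : ℝ) ≤ (W : ℝ) * y := by positivity
    nlinarith
  have h16 := mul_le_mul_of_nonneg_left hb (show (0 : ℝ) ≤ 2 / N by positivity)
  have h17 := mul_le_mul_of_nonneg_left hb2 (show (0 : ℝ) ≤ 4 / N by positivity)
  calc 2 * 3 ^ R * (X / 24 ^ R + 2 / N * (W * y) ^ R) + 2 / N * (1 + W * (2 * y)) ^ R +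
        2 * 3 ^ R * (X / 24 ^ R)
      = 4 * (3 ^ R * (X / 24 ^ R)) + 4 / N * (3 ^ R * (W * y) ^ R) +
        2 / N * (1 + W * (2 * y)) ^ R := by ring
    _ ≤ 4 * (X / 8 ^ R) + 4 / N * (1 + 3 * (W : ℝ) * y) ^ R + 2 / N * (1 + 3 * (W : ℝ) * y) ^ R := by
        rw [e1]
        linarith
    _ = _ := by ring

end Pool.Agent.H50.OM
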